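import Pool.Agent.H804R5.Fin2

/-!
Complex quadratic maps `ℂ^m → ℂ^r` without nonzero real values: for every `r ≥ 4` such a map
exists only for `m ≤ r - 2`, and `m(5) = 3`.
-/

set_option autoImplicit false

namespace Pool.Agent.Results.MP_7fdaab_ag.AllUpperBound

open Pool.Agent.Helper672.Lv

/-- the `m` for which there are `r` complex quadratic forms in `m` variables (a quadratic map
`φ : ℂ^m → ℂ^r`) whose values at a nonzero point are never all real. -/
def Good (r : ℕ) : Set ℕ :=
  {m | ∃ φ : Fin r → QuadraticForm ℂ (Fin m → ℂ), ∀ z, z ≠ 0 → ∃ j, (φ j z).im ≠ 0}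

/-- the imaginary part of a complex quadratic form, as a real quadratic form. -/
noncomputable def imPart {m : ℕ} (p : QuadraticForm ℂ (Fin m → ℂ)) :
    QuadraticForm ℝ (Fin m → ℂ) where
  toFun z := (p z).im
  toFun_smul a z := by
    have h : a • z = (a : ℂ) • z := by
      funext i
      simp
    rw [h, QuadraticMap.map_smul]
    simp [Complex.mul_im]
  exists_companion' := by
    obtain ⟨B, hB⟩ := p.exists_companion
    refine ⟨LinearMap.mk₂ ℝ (fun x y => (B x y).im) ?_ ?_ ?_ ?_, ?_⟩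
    · intro x x' y
      simp
    · intro c x y
      have h : c • x = (c : ℂ) • x := by
        funext i
        simp
      rw [h, map_smul]
      simp [Complex.mul_im]
    · intro x y y'
      simp
    · intro c x y
      have h : c • y = (c : ℂ) • y := by
        funext i
        simp
      rw [h, map_smul]
      simp [Complex.mul_im]
    · intro x y
      simp [hB]

theorem imPart_apply {m : ℕ} (p : QuadraticForm ℂ (Fin m → ℂ)) (z : Fin m → ℂ) :
    imPart p z = (p z).im := rfl

/-- adding zero coordinates. -/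
noncomputable def ext {k m : ℕ} (_h : k ≤ m) : (Fin k → ℂ) →ₗ[ℂ] (Fin m → ℂ) where
  toFun z i := if hi : i.val < k then z ⟨i.val, hi⟩ else 0
  map_add' := by
    intro x y
    funext i
    by_cases hi : i.val < k <;> simp [hi]
  map_smul' := by
    intro c x
    funext i
    by_cases hi : i.val < k <;> simp [hi]

theorem ext_ne_zero {k m : ℕ} (h : k ≤ m) {z : Fin k → ℂ} (hz : z ≠ 0) : ext h z ≠ 0 := by
  intro hcon
  apply hz
  funext i
  have := congrFun hcon ⟨i.val, lt_of_lt_of_le i.2 h⟩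
  simpa [ext] using this

/-- for odd `m ≥ 3` some nonzero real combination of `m + 1` complex `m × m` matrices is
singular. -/
theorem exists_singular_odd {m : ℕ} (hm : m % 2 = 1) (hm3 : 3 ≤ m)
    (S : Fin (m + 1) → Matrix (Fin m) (Fin m) ℂ) :
    ∃ w : Fin (m + 1) → ℝ, w ≠ 0 ∧ (∑ i, (w i : ℂ) • S i).det = 0 := by
  classical
  by_contra hcon
  push Not at hcon
  have hle : 3 ≤ m + 1 := by omega
  have hinj : Function.Injective (Fin.castLE hle) := Fin.castLE_injective hle
  refine J27090.no_odd_frames_bu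
    (fun x => (∑ i : Fin 3, ((x i : ℝ) : ℂ) • S (Fin.castLE hle i)).det) ?_ ?_ ?_
  · refine Continuous.continuousOn ?_
    refine Continuous.matrix_det ?_
    refine continuous_finsetSum _ fun i _ => ?_
    have : Continuous fun x : EuclideanSpace ℝ (Fin 3) => ((x i : ℝ) : ℂ) := by fun_prop
    exact this.smul continuous_const
  · intro x _
    have e : ∑ i : Fin 3, (((-x) i : ℝ) : ℂ) • S (Fin.castLE hle i) =
        - ∑ i : Fin 3, ((x i : ℝ) : ℂ) • S (Fin.castLE hle i) := by
      rw [← Finset.sum_neg_distrib]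
      refine Finset.sum_congr rfl fun i _ => ?_
      simp
    show (∑ i : Fin 3, (((-x) i : ℝ) : ℂ) • S (Fin.castLE hle i)).det = _
    rw [e, Matrix.det_neg, Fintype.card_fin, (Nat.odd_iff.2 hm).neg_one_pow, neg_one_mul]
  · intro x hx
    have h1 := hcon (Function.extend (Fin.castLE hle) (fun i => x i) 0) (by
      intro h
      have h2 : x = 0 := by
        ext i
        have := congrFun h (Fin.castLE hle i)
        rw [hinj.extend_apply] at this
        exact this
      rw [h2, norm_zero] at hx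
      exact zero_ne_one hx)
    have e : ∑ i : Fin 3, ((x i : ℝ) : ℂ) • S (Fin.castLE hle i) =
        ∑ i, ((Function.extend (Fin.castLE hle) (fun i => x i) (0 : Fin (m + 1) → ℝ) i : ℝ) : ℂ) •
          S i := by
      refine Fintype.sum_of_injective (Fin.castLE hle) hinj _ _ ?_ ?_
      · intro i hi
        rw [Function.extend_apply' _ _ _ (fun ⟨a, ha⟩ => hi ⟨a, ha⟩)]
        simp
      · intro i
        rw [hinj.extend_apply]
    rw [e]
    exact h1

theorem bound (r : ℕ) (hr : 4 ≤ r) (m : ℕ) (hm : m ∈ Good r) : m ≤ r - 2 := by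
  obtain ⟨φ, hφ⟩ := hm
  by_contra hcon
  have hkm : r - 1 ≤ m := by omega
  have hq : ∀ j z, (fun j : Fin (r - 1 + 1) =>
      imPart ((φ (Fin.cast (by omega) j)).comp (ext hkm))) j (Complex.I • z) =
      - (fun j : Fin (r - 1 + 1) =>
      imPart ((φ (Fin.cast (by omega) j)).comp (ext hkm))) j z := by
    intro j z
    simp only []
    rw [imPart_apply, imPart_apply, QuadraticMap.map_smul]
    simp
  have hfree : ∀ z : Fin (r - 1) → ℂ, z ≠ 0 → ∃ j, (fun j : Fin (r - 1 + 1) =>
      imPart ((φ (Fin.cast (by omega) j)).comp (ext hkm))) j z ≠ 0 := by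
    intro z hz
    obtain ⟨j, hj⟩ := hφ (ext hkm z) (ext_ne_zero hkm hz)
    refine ⟨Fin.cast (by omega) j, ?_⟩
    simp only []
    rw [imPart_apply]
    exact hj
  rcases Nat.mod_two_eq_zero_or_one (r - 1) with h | h
  · exact Pool.Agent.H804R5.no_forms_even h (by omega) _ hq hfree
  · exact Pool.Agent.H804R5.no_forms (by omega)
      (fun S _ => exists_singular_odd h (by omega) S) _ hq hfree

/-- the coordinate forms on `ℂ³`. -/
noncomputable def pr (i : Fin 3) : (Fin 3 → ℂ) →ₗ[ℂ] ℂ := LinearMap.proj i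

theorem three_mem : 3 ∈ Good 5 := by
  refine ⟨![QuadraticMap.linMulLin (pr 0) (pr 0),
    Complex.I • QuadraticMap.linMulLin (pr 0) (pr 0),
    (2 : ℂ) • QuadraticMap.linMulLin (pr 1) (pr 2),
    QuadraticMap.linMulLin (pr 1) (pr 1) - QuadraticMap.linMulLin (pr 2) (pr 2),
    Complex.I • (QuadraticMap.linMulLin (pr 1) (pr 1) +
      QuadraticMap.linMulLin (pr 2) (pr 2))], ?_⟩
  intro z hz
  by_contra hcon
  push Not at hcon
  have h0 := hcon 0
  have h1 := hcon 1
  have h2 := hcon 2
  have h3 := hcon 3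
  have h4 := hcon 4
  clear hcon
  simp [pr, Complex.mul_im, Complex.mul_re] at h0 h1 h2 h3 h4
  apply hz
  obtain ⟨a, ha⟩ : ∃ a, (z 0).re = a := ⟨_, rfl⟩
  obtain ⟨b, hb⟩ : ∃ b, (z 0).im = b := ⟨_, rfl⟩
  obtain ⟨c, hc⟩ : ∃ c, (z 1).re = c := ⟨_, rfl⟩
  obtain ⟨d, hd⟩ : ∃ d, (z 1).im = d := ⟨_, rfl⟩
  obtain ⟨e, he⟩ : ∃ e, (z 2).re = e := ⟨_, rfl⟩
  obtain ⟨f, hf⟩ : ∃ f, (z 2).im = f := ⟨_, rfl⟩
  rw [ha, hb] at h0 h1
  rw [hc, hd, he, hf] at h2 h3 h4
  have k0 : (a * a + b * b) ^ 2 = 0 := by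
    have e1 : a * b = 0 := by linarith
    have e2 : (a * a + b * b) ^ 2 = (a * a - b * b) ^ 2 + 4 * (a * b) ^ 2 := by ring
    rw [e2, h1, e1]; ring
  have k1 : a * a + b * b = 0 := pow_eq_zero_iff (by norm_num) |>.1 k0
  obtain ⟨ea, eb⟩ := mul_self_add_mul_self_eq_zero.1 k1
  have k2 : (c * c + e * e) * (d * d + f * f) = 0 := by
    have e1 : c * d - e * f = 0 := by linarith
    have e2 : (c * c + e * e) * (d * d + f * f) = (c * d - e * f) ^ 2 +
      (c * f + d * e) ^ 2 + 4 * (c * d) * (e * f) - 2 * (c * d) * (e * f) - 2 * (c * f) * (d * e) := by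
      ring
    rw [e2, e1, h2]; ring
  have k3 : c * c + e * e = d * d + f * f := by linarith
  have k4 : (c * c + e * e) ^ 2 = 0 := by
    have : (c * c + e * e) ^ 2 = (c * c + e * e) * (c * c + e * e) := by ring
    rw [this]
    nth_rewrite 2 [k3]
    exact k2
  have k5 : c * c + e * e = 0 := pow_eq_zero_iff (by norm_num) |>.1 k4
  have k6 : d * d + f * f = 0 := by rw [← k3]; exact k5
  obtain ⟨ec, ee⟩ := mul_self_add_mul_self_eq_zero.1 k5
  obtain ⟨ed, ef⟩ := mul_self_add_mul_self_eq_zero.1 k6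
  have z0 : z 0 = 0 := Complex.ext (by rw [ha, ea, Complex.zero_re]) (by rw [hb, eb, Complex.zero_im])
  have z1 : z 1 = 0 := Complex.ext (by rw [hc, ec, Complex.zero_re]) (by rw [hd, ed, Complex.zero_im])
  have z2 : z 2 = 0 := Complex.ext (by rw [he, ee, Complex.zero_re]) (by rw [hf, ef, Complex.zero_im])
  funext i
  rcases i with ⟨i, hi⟩
  interval_cases i
  · exact z0
  · exact z1
  · exact z2

/-- (1) Let `r ≥ 4`. If there are `r` complex quadratic forms in `m` variables whose values at a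
nonzero point are never all real, then `m ≤ r - 2`. (2) Hence `m(r) ≤ r - 2` for every `r ≥ 4`.
(3) `m(5) = 3`. -/
theorem result :
    (∀ r : ℕ, 4 ≤ r → ∀ m ∈ Good r, m ≤ r - 2) ∧
    (∀ r : ℕ, 4 ≤ r → sSup (Good r) ≤ r - 2) ∧
    sSup (Good 5) = 3 := by
  have hne : ∀ r, (Good r).Nonempty := fun r => ⟨0, 0, fun z hz => (hz (Subsingleton.elim _ _)).elim⟩
  refine ⟨bound, fun r hr => csSup_le (hne r) (bound r hr), ?_⟩
  refine le_antisymm (csSup_le (hne 5) (bound 5 (by norm_num))) ?_
  exact le_csSup ⟨3, bound 5 (by norm_num)⟩ three_mem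

end Pool.Agent.Results.MP_7fdaab_ag.AllUpperBound
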